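import Mathlib

open Finset Polynomial

namespace Pool.Agent.H.MP_8220a0_an

noncomputable def ee (s : ℕ → ℝ) : ℕ → ℝ
  | 0 => 1
  | j + 1 => -(∑ i : Fin (j + 1), ee s i * s (j + 1 - i)) / (j + 1)
decreasing_by exact i.2

lemma ee_succ (s : ℕ → ℝ) (j : ℕ) :
    (j + 1) * ee s (j + 1) + ∑ i ∈ range (j + 1), ee s i * s (j + 1 - i) = 0 := by
  rw [ee, Fin.sum_univ_eq_sum_range (fun i => ee s i * s (j + 1 - i))]
  field_simp; ring

lemma ee_bd {s : ℕ → ℝ} {n : ℕ} {σ : ℝ} (h0 : 0 ≤ σ) (h1 : 4 * n * σ ≤ 1)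
    (hs : ∀ m, 1 ≤ m → m ≤ n → |s m| ≤ σ) (k : ℕ) (hk : k ≤ n) :
    ∑ i ∈ range k, |ee s (i + 1)| ≤ 2 * k * σ := by
  induction k with
  | zero => simp
  | succ k ih =>
    have ih := ih (by omega)
    rw [sum_range_succ]
    have h2 : |∑ i ∈ range (k + 1), ee s i * s (k + 1 - i)| ≤ (∑ i ∈ range (k + 1), |ee s i|) * σ := by
      rw [sum_mul]
      refine (abs_sum_le_sum_abs _ _).trans (sum_le_sum fun i hi => ?_)
      rw [abs_mul]
      have := mem_range.1 hi
      gcongr
      exact hs _ (by omega) (by omega)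
    rw [sum_range_succ' (fun i => |ee s i|), show ee s 0 = 1 by rw [ee], abs_one] at h2
    have h3 := ee_succ s k
    have h4 : (k + 1) * |ee s (k + 1)| = |∑ i ∈ range (k + 1), ee s i * s (k + 1 - i)| := by
      rw [eq_neg_of_add_eq_zero_right h3, abs_neg, abs_mul, abs_of_pos (a := (k + 1 : ℝ)) (by positivity)]
    have h5 : (k : ℝ) ≤ n := by exact_mod_cast (by omega : k ≤ n)
    have h6 := abs_nonneg (ee s (k + 1))
    have h7 : (0 : ℝ) ≤ k := by positivity
    have h8 : 2 * k * σ ≤ 1 := by nlinarith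
    push_cast
    nlinarith [mul_le_mul_of_nonneg_right (ih.trans h8) h0]

noncomputable def SP (n : ℕ) (p : ℕ → ℂ) : ℂ[X] := ∑ m ∈ range n, C (p (m + 1)) * X ^ (m + 1)

lemma SP_coeff (n : ℕ) (p : ℕ → ℂ) (m : ℕ) (h : m ≤ n) :
    (SP n p).coeff m = if m = 0 then 0 else p m := by
  simp only [SP, finset_sum_coeff, coeff_C_mul_X_pow]
  rcases m with _ | m
  · simp
  · simp; omega

lemma logd (n : ℕ) (t : Multiset ℂ) : X ^ (n + 1) ∣ X * derivative (t.map fun w => 1 - C w * X).prod +
    (t.map fun w => 1 - C w * X).prod * SP n fun m => (t.map (· ^ m)).sum := by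
  induction t using Multiset.induction_on with
  | empty => simp [SP]
  | cons w t ih =>
    have g : (1 - C w * X) * SP n (w ^ ·) = C w * X - C (w ^ (n + 1)) * X ^ (n + 1) := by
      clear ih
      induction n with
      | zero => simp [SP]
      | succ n ih => rw [SP, sum_range_succ, ← SP, mul_add, ih]; simp only [pow_succ, C_mul]; ring
    have e : SP n (fun m => ((w ::ₘ t).map (· ^ m)).sum) =
        SP n (w ^ ·) + SP n fun m => (t.map (· ^ m)).sum := by
      simp [SP, add_mul, sum_add_distrib]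
    rw [e, Multiset.map_cons, Multiset.prod_cons]
    obtain ⟨R, hR⟩ := ih
    refine ⟨(1 - C w * X) * R - C (w ^ (n + 1)) * (t.map fun w => 1 - C w * X).prod, ?_⟩
    simp only [derivative_mul, derivative_sub, derivative_one, derivative_C, derivative_X]
    linear_combination (1 - C w * X) * hR + (t.map fun w => 1 - C w * X).prod * g

lemma onC {n : ℕ} {e : ℕ → ℝ} (h0 : e 0 = 1) (h1 : ∑ i ∈ range n, |e (i + 1)| ≤ 1 / 2) {z : ℂ}
    (hz : ∑ j ∈ range (n + 1), e j * z ^ j + ∑ j ∈ range (n + 1), e j * z ^ (2 * n + 1 - j) = 0) :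
    ‖z‖ = 1 := by
  have p0 : ∀ w : ℂ, ‖w‖ ≤ 1 → ∑ j ∈ range (n + 1), e j * w ^ j ≠ 0 := by
    intro w hw c
    rw [sum_range_succ', h0] at c
    have : ‖∑ j ∈ range n, e (j + 1) * w ^ (j + 1)‖ ≤ 1 / 2 := by
      refine (norm_sum_le _ _).trans (le_trans (sum_le_sum fun j _ => ?_) h1)
      rw [norm_mul, norm_pow, Complex.norm_real, Real.norm_eq_abs]
      exact mul_le_of_le_one_right (abs_nonneg _) (pow_le_one₀ (norm_nonneg _) hw)
    rw [eq_neg_of_add_eq_zero_left c] at this
    norm_num at this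
  have key : ∀ w : ℂ, ‖w‖ < 1 → ∑ j ∈ range (n + 1), e j * w ^ j +
      ∑ j ∈ range (n + 1), e j * w ^ (2 * n + 1 - j) ≠ 0 := by
    intro w hw c
    have mm := Complex.norm_le_of_forall_mem_frontier_norm_le (U := Metric.ball 0 1) (C := 1)
      (f := fun w : ℂ => (∑ j ∈ range (n + 1), e j * w ^ (n - j)) / ∑ j ∈ range (n + 1), e j * w ^ j)
      Metric.isBounded_ball (DifferentiableOn.diffContOnCl (by
        rw [closure_ball _ one_ne_zero]
        exact DifferentiableOn.div (by fun_prop) (by fun_prop) fun w hw => p0 w (by simpa using hw)))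
      (fun v hv => by
        rw [frontier_ball _ one_ne_zero] at hv
        have hv : ‖v‖ = 1 := by simpa using hv
        have v0 : v ≠ 0 := by rintro rfl; simp at hv
        have : ∑ j ∈ range (n + 1), e j * v ^ (n - j) =
            v ^ n * (starRingEnd ℂ) (∑ j ∈ range (n + 1), e j * v ^ j) := by
          rw [map_sum, mul_sum]
          refine sum_congr rfl fun j hj => ?_
          rw [map_mul, map_pow, Complex.conj_ofReal, ← Complex.inv_eq_conj hv,
            pow_sub₀ _ v0 (by have := mem_range.1 hj; omega), inv_pow]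
          ring
        rw [this, norm_div, norm_mul, norm_pow, hv, Complex.norm_conj, one_pow, one_mul]
        exact div_self_le_one _) (z := w) (subset_closure (by simpa using hw))
    have e1 : ∑ j ∈ range (n + 1), e j * w ^ (2 * n + 1 - j) =
        w ^ (n + 1) * ∑ j ∈ range (n + 1), e j * w ^ (n - j) := by
      rw [mul_sum]
      refine sum_congr rfl fun j hj => ?_
      rw [show 2 * n + 1 - j = n + 1 + (n - j) by have := mem_range.1 hj; omega, pow_add]; ring
    have q := norm_pos_iff.2 (p0 w hw.le)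
    rw [norm_div, div_le_one q] at mm
    rw [e1] at c
    have := congrArg norm (eq_neg_of_add_eq_zero_left c)
    rw [norm_neg, norm_mul, norm_pow] at this
    have h2 : ‖w‖ ^ (n + 1) < 1 := pow_lt_one₀ (norm_nonneg _) hw (by omega)
    nlinarith [mul_le_mul_of_nonneg_left mm (show 0 ≤ ‖w‖ ^ (n + 1) by positivity)]
  rcases lt_trichotomy ‖z‖ 1 with h | h | h
  · exact (key z h hz).elim
  · exact h
  · have z0 : z ≠ 0 := by rintro rfl; norm_num at h
    refine (key z⁻¹ (by rw [norm_inv]; exact inv_lt_one_of_one_lt₀ h) ?_).elim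
    rw [← mul_eq_zero_iff_left (pow_ne_zero (2 * n + 1) z0), ← hz, mul_add, mul_sum, mul_sum,
      add_comm (∑ j ∈ range (n + 1), (e j : ℂ) * z ^ j)]
    congr 1 <;> refine sum_congr rfl fun j hj => ?_
    · have := mem_range.1 hj
      rw [inv_pow, pow_sub₀ _ z0 (by omega)]; ring
    · have := mem_range.1 hj
      rw [inv_pow, pow_sub₀ _ z0 (by omega)]; field_simp

lemma circ {s : ℕ → ℝ} {n : ℕ} {σ : ℝ} (h0 : 0 ≤ σ) (h1 : 4 * n * σ ≤ 1)
    (hs : ∀ m, 1 ≤ m → m ≤ n → |s m| ≤ σ) : ∃ t : Multiset ℝ, t.card = 2 * n + 1 ∧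
      ∀ m, 1 ≤ m → m ≤ n → (t.map fun φ => Real.cos (m * φ)).sum = s m := by
  have e0 : ee s 0 = 1 := by rw [ee]
  let Q : ℂ[X] := ∑ j ∈ range (n + 1), C (ee s j : ℂ) * X ^ j +
    ∑ j ∈ range (n + 1), C (ee s j : ℂ) * X ^ (2 * n + 1 - j)
  have c1 : ∀ j ≤ n, Q.coeff j = ee s j := by
    intro j hj
    simp only [Q, coeff_add, finset_sum_coeff, coeff_C_mul_X_pow]
    rw [sum_eq_zero (s := range (n + 1)) (f := fun i => if j = 2 * n + 1 - i then (ee s i : ℂ) else 0)
      fun i hi => if_neg (by have := mem_range.1 hi; omega)]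
    simp; omega
  have c2 : Q.natDegree = 2 * n + 1 ∧ Q.Monic := by
    have : Q = X ^ (2 * n + 1) + (∑ j ∈ range (n + 1), C (ee s j : ℂ) * X ^ j +
        ∑ j ∈ range n, C (ee s (j + 1) : ℂ) * X ^ (2 * n + 1 - (j + 1))) := by
      simp only [Q]; rw [sum_range_succ' (fun j => C (ee s j : ℂ) * X ^ (2 * n + 1 - j)), e0]
      simp; ring
    have d : (∑ j ∈ range (n + 1), C (ee s j : ℂ) * X ^ j +
        ∑ j ∈ range n, C (ee s (j + 1) : ℂ) * X ^ (2 * n + 1 - (j + 1))).degree <
          ((2 * n + 1 : ℕ) : WithBot ℕ) := by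
      refine mem_degreeLT.1 (add_mem (Submodule.sum_mem _ fun j hj => mem_degreeLT.2 ?_)
        (Submodule.sum_mem _ fun j hj => mem_degreeLT.2 ?_)) <;>
        exact (degree_C_mul_X_pow_le _ _).trans_lt (by have := mem_range.1 hj; norm_cast; omega)
    rw [this]
    exact ⟨by rw [natDegree_add_eq_left_of_degree_lt (by rwa [degree_X_pow]), natDegree_X_pow],
      monic_X_pow_add d⟩
  have c3 : ∀ r ∈ Q.roots, ‖r‖ = 1 := fun r hr => onC e0
    ((ee_bd h0 h1 hs n le_rfl).trans (by linarith)) (by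
      simpa [Q, eval_finset_sum] using (mem_roots c2.2.ne_zero).1 hr)
  have c4 := (IsAlgClosed.splits Q).eq_prod_roots_of_monic c2.2
  have c5 : Q = ((Q.roots.map (·⁻¹)).map fun w => 1 - C w * X).prod := by
    have : ∀ r ∈ Q.roots, X - C r = C (-r) * (1 - C r⁻¹ * X) := by
      intro r hr
      have r0 : r ≠ 0 := by rintro rfl; simpa using c3 0 hr
      rw [mul_sub, ← mul_assoc, ← C_mul, neg_mul, mul_inv_cancel₀ r0]; simp; ring
    rw [Multiset.map_congr rfl this, Multiset.prod_map_mul] at c4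
    have h2 := congrArg (eval 0) c4
    rw [← coeff_zero_eq_eval_zero, c1 0 (by omega), e0] at h2
    simp [eval_multiset_prod] at h2
    rw [← Function.comp_def C (fun r : ℂ => -r), ← Multiset.map_map, ← map_multiset_prod] at c4
    rw [Multiset.map_map]
    simpa [← h2] using c4
  have c6 := logd n (Q.roots.map (·⁻¹))
  rw [← c5, X_pow_dvd_iff] at c6
  have c7 : ∀ m, 1 ≤ m → m ≤ n → ((Q.roots.map (·⁻¹)).map (· ^ m)).sum = s m := by
    intro m
    induction m using Nat.strong_induction_on with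
    | _ m ih =>
      intro m1 mn
      obtain ⟨j, rfl⟩ : ∃ j, m = j + 1 := ⟨m - 1, by omega⟩
      have a := c6 (j + 1) (by omega)
      have b : ((j + 1) * ee s (j + 1) + ∑ i ∈ range (j + 1), ee s i * s (j + 1 - i) : ℂ) = 0 := by
        exact_mod_cast ee_succ s j
      rw [coeff_add, coeff_X_mul, coeff_derivative, coeff_mul,
        Nat.sum_antidiagonal_eq_sum_range_succ_mk, sum_range_succ, sum_range_succ', c1 _ mn,
        c1 0 (by omega), SP_coeff _ _ _ (by omega), SP_coeff _ _ _ (by omega),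
        sum_congr rfl (g := fun i => (ee s (i + 1) * s (j + 1 - (i + 1)) : ℂ)) fun i hi => by
          have := mem_range.1 hi
          rw [c1 _ (by omega), SP_coeff _ _ _ (by omega), if_neg (by omega),
            ih _ (by omega) (by omega) (by omega)]] at a
      rw [sum_range_succ', e0] at b
      simp [e0] at a b ⊢
      linear_combination a - b
  refine ⟨Q.roots.map fun r => Complex.arg r⁻¹, by
    rw [Multiset.card_map, ← c2.1, (IsAlgClosed.splits Q).natDegree_eq_card_roots], fun m m1 mn => ?_⟩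
  have := congrArg Complex.reLm (c7 m m1 mn)
  rw [map_multiset_sum, Multiset.map_map, Multiset.map_map] at this
  rw [Multiset.map_map]
  refine Eq.trans (congrArg _ (Multiset.map_congr rfl fun r hr => ?_)) (this.trans (by simp))
  have h := Complex.norm_mul_exp_arg_mul_I r⁻¹
  rw [norm_inv, c3 r hr] at h
  simp only [Function.comp, Complex.reLm_coe]
  conv_rhs => rw [← h]
  simp only [inv_one, Complex.ofReal_one, one_mul, ← Complex.exp_nat_mul]
  rw [← Complex.exp_ofReal_mul_I_re]
  push_cast; ring_nf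

end Pool.Agent.H.MP_8220a0_an
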