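import Pool.Agent.H.MP_8220a0_an.A

open Finset Polynomial Real MeasureTheory

namespace Pool.Agent.H.MP_8220a0_an

lemma unif {n K : ℕ} (h : 4 * n + 2 ≤ K) : ∃ t : Multiset ℝ, t.card = K ∧
    ∀ m, 1 ≤ m → m ≤ n → (t.map fun φ => cos (m * φ)).sum = 0 := by
  have c : ∀ k, ∃ t : Multiset ℝ, t.card = 2 * k + 1 ∧
      ∀ m, 1 ≤ m → m ≤ k → (t.map fun φ => cos (m * φ)).sum = 0 := fun k =>
    circ (s := fun _ => 0) (σ := 0) le_rfl (by simp) (by simp)
  rcases Nat.even_or_odd' K with ⟨k, rfl | rfl⟩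
  · obtain ⟨t, h1, h2⟩ := c n
    obtain ⟨u, h3, h4⟩ := c (k - n - 1)
    exact ⟨t + u, by rw [Multiset.card_add]; omega, fun m a b => by
      rw [Multiset.map_add, Multiset.sum_add, h2 m a b, h4 m a (by omega), add_zero]⟩
  · obtain ⟨t, h1, h2⟩ := c k
    exact ⟨t, h1, fun m a b => h2 m a (by omega)⟩

lemma nodes {n L M : ℕ} {c : ℕ → ℝ} (hc : ∀ m, 1 ≤ m → m ≤ n → 4 * n * |c m| ≤ L)
    (h : (2 * n + 1) * L + (4 * n + 2) ≤ M) : ∃ t : Multiset ℝ, t.card = M ∧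
      ∀ m, 1 ≤ m → m ≤ n → (t.map fun φ => cos (m * φ)).sum = c m := by
  obtain ⟨u, h3, h4⟩ := unif (n := n) (K := M - (2 * n + 1) * L) (by omega)
  obtain ⟨t, h1, h2⟩ := circ (s := fun m => c m / L) (n := n) (σ := 1 / (4 * n)) (by positivity)
    (by rw [mul_one_div]; exact div_self_le_one _) fun m a b => by
      have : (0 : ℝ) < n := by exact_mod_cast (by omega : 0 < n)
      rw [abs_div, Nat.abs_cast]
      refine div_le_of_le_mul₀ (by positivity) (by positivity) ?_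
      rw [one_div_mul_eq_div, le_div_iff₀' (by positivity)]
      exact hc m a b
  refine ⟨L • t + u, by rw [Multiset.card_add, Multiset.card_nsmul, h1, h3, mul_comm L]; omega,
    fun m a b => ?_⟩
  rw [Multiset.map_add, Multiset.sum_add, h4 m a b, Multiset.map_nsmul, Multiset.sum_nsmul, h2 m a b,
    add_zero, nsmul_eq_mul]
  rcases Nat.eq_zero_or_pos L with rfl | L0
  · have := hc m a b
    have : (0 : ℝ) < n := by exact_mod_cast (by omega : 0 < n)
    have : |c m| = 0 := le_antisymm (by push_cast at *; nlinarith) (abs_nonneg _)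
    simpa [eq_comm] using this
  · field_simp

noncomputable def Tt (a : ℝ) (j : ℕ) : ℝ[X] :=
  (Chebyshev.T ℝ j).comp (C (a ^ 2)⁻¹ * (X - C (1 - a ^ 2)))

lemma compo {a : ℝ} (a0 : 0 < a) (a1 : a < 1) {n L M : ℕ} (Λ : ℝ[X] →ₗ[ℝ] ℝ) (h1 : Λ 1 = M)
    (hc : ∀ m, 1 ≤ m → m ≤ n → 4 * n * |Λ (Tt a m)| ≤ L) (h : (2 * n + 1) * L + (4 * n + 2) ≤ M) :
    ∃ u : Multiset ℝ, u.card = M ∧ (∀ x ∈ u, |x| ≤ 1) ∧
      ∀ q : ℝ[X], q.natDegree ≤ n → (u.map fun x => q.eval x).sum = Λ q := by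
  obtain ⟨t, h2, h3⟩ := nodes hc h
  refine ⟨t.map fun φ => a ^ 2 * cos φ + (1 - a ^ 2), by simpa using h2, fun x hx => ?_,
    fun q hq => ?_⟩
  · obtain ⟨φ, -, rfl⟩ := Multiset.mem_map.1 hx
    have := cos_le_one φ; have := neg_one_le_cos φ
    have : a ^ 2 < 1 := by nlinarith
    rw [abs_le]; constructor <;> nlinarith [sq_nonneg a]
  have key : ∀ r ∈ Submodule.span ℝ (Chebyshev.chebyshevTsequence ℝ '' Set.Iic n),
      (t.map fun φ => r.eval (cos φ)).sum = Λ (r.comp (C (a ^ 2)⁻¹ * (X - C (1 - a ^ 2)))) := by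
    intro r hr
    induction hr using Submodule.span_induction with
    | mem r hr =>
      obtain ⟨j, hj, rfl⟩ := hr
      change (t.map fun φ => (Chebyshev.T ℝ j).eval (cos φ)).sum = Λ (Tt a j)
      simp only [Chebyshev.T_real_cos, Int.cast_natCast]
      rcases Nat.eq_zero_or_pos j with rfl | j0
      · simp [Tt, h1, h2]
      · exact h3 j j0 hj
    | zero => simp
    | add x y _ _ hx hy => simp [Multiset.sum_map_add, hx, hy]
    | smul c x _ hx => simp [Multiset.sum_map_mul_left, hx, smul_comp]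
  rw [Sequence.span_degreeLE _ fun i _ => (leadingCoeff_ne_zero.2 (Sequence.ne_zero _ i)).isUnit] at key
  have := key (q.comp (C (a ^ 2) * X + C (1 - a ^ 2))) (mem_degreeLE.2 (degree_le_of_natDegree_le (by
    refine natDegree_comp_le.trans ?_
    calc _ ≤ n * 1 := Nat.mul_le_mul hq (by compute_degree)
      _ = n := mul_one n)))
  have e : (C (a ^ 2) * X + C (1 - a ^ 2) : ℝ[X]).comp (C (a ^ 2)⁻¹ * (X - C (1 - a ^ 2))) = X := by
    simp only [add_comp, mul_comp, C_comp, X_comp]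
    rw [← mul_assoc, ← C_mul, mul_inv_cancel₀ (by positivity)]; simp
  rw [comp_assoc, e, comp_X] at this
  rw [← this, Multiset.map_map]
  simp [eval_comp]

noncomputable def Wa (a θ : ℝ) : ℝ := |cos (θ / 2)| / (2 * √(a ^ 2 - sin (θ / 2) ^ 2))

noncomputable def hh (a ψ : ℝ) : ℝ := 2 * arcsin (a * sin ψ)

lemma Wa_nonneg (a θ : ℝ) : 0 ≤ Wa a θ := by unfold Wa; positivity

lemma cov {a : ℝ} (a0 : 0 < a) (a1 : a < 1) {F : ℝ → ℝ} (hF : Continuous F) :
    IntegrableOn (fun θ => F θ * Wa a θ) (Set.Ioc (-π) π) ∧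
      ∫ θ in Set.Ioc (-π) π, F θ * Wa a θ = ∫ ψ in (-(π / 2))..(π / 2), F (hh a ψ) := by
  have b : ∀ ψ, -1 < a * sin ψ ∧ a * sin ψ < 1 := fun ψ => by
    have := sin_le_one ψ; have := neg_one_le_sin ψ; constructor <;> nlinarith
  have d : ∀ ψ ∈ Set.Ioo (-(π / 2)) (π / 2), HasDerivWithinAt (hh a)
      (2 * (1 / √(1 - (a * sin ψ) ^ 2) * (a * cos ψ))) (Set.Ioo (-(π / 2)) (π / 2)) ψ := fun ψ _ => by
    have h1 := (hasDerivAt_arcsin (b ψ).1.ne' (b ψ).2.ne).comp ψ ((hasDerivAt_sin ψ).const_mul a)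
    exact (h1.const_mul 2).hasDerivWithinAt
  have inj : Set.InjOn (hh a) (Set.Ioo (-(π / 2)) (π / 2)) := by
    intro x hx y hy e
    have := injOn_arcsin ⟨(b x).1.le, (b x).2.le⟩ ⟨(b y).1.le, (b y).2.le⟩
      (mul_left_cancel₀ two_ne_zero e)
    exact injOn_sin (Set.Ioo_subset_Icc_self hx) (Set.Ioo_subset_Icc_self hy)
      (mul_left_cancel₀ a0.ne' this)
  have e : Set.EqOn (fun ψ => |2 * (1 / √(1 - (a * sin ψ) ^ 2) * (a * cos ψ))| •
      (F (hh a ψ) * Wa a (hh a ψ))) (fun ψ => F (hh a ψ)) (Set.Ioo (-(π / 2)) (π / 2)) := by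
    intro ψ hψ
    have c0 := cos_pos_of_mem_Ioo hψ
    have s0 : 0 < √(1 - (a * sin ψ) ^ 2) := sqrt_pos.2 (by nlinarith [b ψ])
    simp only [Wa, hh, mul_div_cancel_left₀ _ (two_ne_zero' ℝ), cos_arcsin,
      sin_arcsin (b ψ).1.le (b ψ).2.le, smul_eq_mul]
    rw [show a ^ 2 - (a * sin ψ) ^ 2 = (a * cos ψ) ^ 2 by rw [mul_pow a (cos ψ), cos_sq']; ring,
      sqrt_sq (by positivity), abs_of_pos s0, abs_of_pos (by positivity)]
    generalize √(1 - (a * sin ψ) ^ 2) = r at s0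
    field_simp
  have sub : hh a '' Set.Ioo (-(π / 2)) (π / 2) ⊆ Set.Ioc (-π) π := by
    rintro _ ⟨ψ, -, rfl⟩
    have := neg_pi_div_two_lt_arcsin.2 (b ψ).1
    have := arcsin_le_pi_div_two (a * sin ψ)
    unfold hh; constructor <;> linarith
  have z : ∀ θ ∈ Set.Ioc (-π) π \ hh a '' Set.Ioo (-(π / 2)) (π / 2), F θ * Wa a θ = 0 := by
    rintro θ ⟨h1, h2⟩
    by_contra c
    have : 0 < a ^ 2 - sin (θ / 2) ^ 2 := by
      by_contra c'
      exact c (by simp [Wa, sqrt_eq_zero'.2 (not_lt.1 c')])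
    have h3 := abs_lt.1 (abs_lt_of_sq_lt_sq (by linarith : sin (θ / 2) ^ 2 < a ^ 2) a0.le)
    have h4 : -1 < sin (θ / 2) / a := by rw [lt_div_iff₀ a0]; linarith
    have h5 : sin (θ / 2) / a < 1 := by rw [div_lt_iff₀ a0]; linarith
    refine h2 ⟨arcsin (sin (θ / 2) / a), ⟨neg_pi_div_two_lt_arcsin.2 h4, arcsin_lt_pi_div_two.2 h5⟩, ?_⟩
    rw [hh, sin_arcsin h4.le h5.le, mul_div_cancel₀ _ a0.ne',
      arcsin_sin (by linarith [h1.1]) (by linarith [h1.2])]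
    ring
  have hc : Continuous fun ψ => F (hh a ψ) := by unfold hh; fun_prop
  constructor
  · refine IntegrableOn.of_forall_diff_eq_zero ?_ measurableSet_Ioc z
    rw [integrableOn_image_iff_integrableOn_abs_deriv_smul measurableSet_Ioo d inj,
      integrableOn_congr_fun e measurableSet_Ioo]
    exact hc.integrableOn_Icc.mono_set Set.Ioo_subset_Icc_self
  · rw [setIntegral_eq_of_subset_of_forall_diff_eq_zero measurableSet_Ioc sub z,
      integral_image_eq_integral_abs_deriv_smul measurableSet_Ioo d inj,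
      setIntegral_congr_fun measurableSet_Ioo e,
      intervalIntegral.integral_of_le (by linarith [pi_pos]), integral_Ioc_eq_integral_Ioo]

lemma cos_hh {a : ℝ} (a0 : 0 < a) (a1 : a < 1) (ψ : ℝ) :
    cos (hh a ψ) = 1 - 2 * a ^ 2 * sin ψ ^ 2 := by
  have := sin_le_one ψ; have := neg_one_le_sin ψ
  rw [hh, cos_two_mul, cos_sq', sin_arcsin (by nlinarith) (by nlinarith)]; ring

noncomputable def av (a : ℝ) : ℝ[X] →ₗ[ℝ] ℝ where
  toFun q := π⁻¹ * ∫ ψ in (-(π / 2))..(π / 2), q.eval (1 - 2 * a ^ 2 * sin ψ ^ 2)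
  map_add' p q := by
    simp only [eval_add]
    rw [intervalIntegral.integral_add (Continuous.intervalIntegrable (by fun_prop) _ _)
      (Continuous.intervalIntegrable (by fun_prop) _ _), mul_add]
  map_smul' c q := by simp [mul_left_comm]

lemma av_one (a : ℝ) : av a 1 = 1 := by simp [av, pi_ne_zero]

lemma av_le (a : ℝ) (q : ℝ[X]) {R : ℝ} (h : ∀ x, 1 - 2 * a ^ 2 ≤ x → x ≤ 1 → |q.eval x| ≤ R) :
    |av a q| ≤ R := by
  have := intervalIntegral.norm_integral_le_of_norm_le_const (a := -(π / 2)) (b := π / 2) (C := R)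
    (f := fun ψ => q.eval (1 - 2 * a ^ 2 * sin ψ ^ 2)) fun ψ _ =>
      h _ (by nlinarith [sin_sq_le_one ψ, sq_nonneg a]) (by nlinarith [sq_nonneg (a * sin ψ)])
  rw [show π / 2 - -(π / 2) = π by ring, abs_of_pos pi_pos] at this
  change |π⁻¹ * _| ≤ R
  rw [abs_mul, abs_inv, abs_of_pos pi_pos, inv_mul_le_iff₀' pi_pos]
  exact this

lemma av_T {a : ℝ} (a0 : 0 < a) {j : ℕ} (hj : 1 ≤ j) : av a (Tt a j) = 0 := by
  have : ∀ ψ, (Tt a j).eval (1 - 2 * a ^ 2 * sin ψ ^ 2) = cos (2 * j * ψ) := by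
    intro ψ
    have : (a ^ 2)⁻¹ * (1 - 2 * a ^ 2 * sin ψ ^ 2 - (1 - a ^ 2)) = cos (2 * ψ) := by
      rw [cos_two_mul, cos_sq']; field_simp; ring
    simp only [Tt, eval_comp, eval_mul, eval_C, eval_sub, eval_X, this, Chebyshev.T_real_cos]
    push_cast; ring_nf
  change π⁻¹ * _ = 0
  simp only [this]
  rw [intervalIntegral.integral_comp_mul_left (fun x => cos x) (by positivity), integral_cos,
    show 2 * (j : ℝ) * (π / 2) = j * π by ring, show 2 * (j : ℝ) * -(π / 2) = -(j * π) by ring]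
  simp

lemma Tt_le {a : ℝ} (a0 : 0 < a) (j : ℕ) {x : ℝ} (h1 : 1 - 2 * a ^ 2 ≤ x) (h2 : x ≤ 1) :
    |(Tt a j).eval x| ≤ 1 := by
  rw [Tt, eval_comp]
  refine Chebyshev.abs_eval_T_real_le_one _ ?_
  simp only [eval_mul, eval_C, eval_sub, eval_X]
  rw [abs_mul, abs_inv, abs_of_pos (by positivity), inv_mul_le_iff₀ (by positivity), abs_le]
  constructor <;> linarith

lemma cov_av {a : ℝ} (a0 : 0 < a) (a1 : a < 1) (q : ℝ[X]) :
    ∫ θ in Set.Ioc (-π) π, q.eval (cos θ) * Wa a θ = π * av a q := by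
  rw [(cov a0 a1 (by fun_prop)).2]
  simp only [cos_hh a0 a1]
  exact (mul_inv_cancel_left₀ pi_ne_zero _).symm

end Pool.Agent.H.MP_8220a0_an
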