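import Pool.Agent.H.MP_8220a0_an.B

open Finset Polynomial Real MeasureTheory Filter Topology

namespace Pool.Agent.H.MP_8220a0_an

noncomputable def aa (j : ℕ) : ℝ := 1 - 1 / (j + 2)

lemma aa_pos (j : ℕ) : 0 < aa j := by
  rw [aa, sub_pos, div_lt_one (by positivity)]; linarith [j.cast_nonneg (α := ℝ)]

lemma aa_lt (j : ℕ) : aa j < 1 := by rw [aa, sub_lt_self_iff]; positivity

lemma aa_mono {i j : ℕ} (h : i ≤ j) : aa i ≤ aa j := by unfold aa; gcongr

lemma aa_tend : Tendsto aa atTop (𝓝 1) := by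
  have := (tendsto_one_div_add_atTop_nhds_zero_nat (𝕜 := ℝ)).comp (tendsto_add_atTop_nat 1)
  unfold aa
  simpa [Function.comp_def, add_assoc, one_add_one_eq_two] using this.const_sub 1

lemma Wa_tend {θ : ℝ} (h : cos (θ / 2) ≠ 0) : Tendsto (fun j => Wa (aa j) θ) atTop (𝓝 (1 / 2)) := by
  have e : √(1 ^ 2 - sin (θ / 2) ^ 2) = |cos (θ / 2)| := by rw [one_pow, ← cos_sq', sqrt_sq_eq_abs]
  have p := abs_pos.2 h
  have := (tendsto_const_nhds (x := |cos (θ / 2)|)).div ((((aa_tend.pow 2).sub_const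
    (sin (θ / 2) ^ 2)).sqrt).const_mul 2) (by rw [e]; positivity)
  rw [e, show |cos (θ / 2)| / (2 * |cos (θ / 2)|) = 1 / 2 by field_simp] at this
  exact this

lemma bdq (q : ℝ[X]) : ∃ R, ∀ x, |x| ≤ 1 → |q.eval x| ≤ R := by
  obtain ⟨R, h⟩ := (isCompact_Icc (a := (-1 : ℝ)) (b := 1)).exists_bound_of_continuousOn
    q.continuous.continuousOn
  exact ⟨R, fun x hx => h x (abs_le.1 hx)⟩

lemma av_le' (j : ℕ) (q : ℝ[X]) {R : ℝ} (h : ∀ x, |x| ≤ 1 → |q.eval x| ≤ R) : |av (aa j) q| ≤ R :=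
  av_le _ _ fun x a b => h x (abs_le.2 ⟨by nlinarith [aa_pos j, aa_lt j], b⟩)

structure Sq (η : ℕ → ℝ) : Prop where
  pos : ∀ j, 0 < η j
  one : η 0 = 1
  half : ∀ j, η (j + 1) ≤ η j / 2

noncomputable def WW (η : ℕ → ℝ) (θ : ℝ) : ℝ := ∑' j, η j * Wa (aa j) θ

variable {η : ℕ → ℝ}

lemma Sq.geo (h : Sq η) (k j : ℕ) : η (j + k) ≤ η k * (1 / 2) ^ j := by
  induction j with
  | zero => simp
  | succ j ih => rw [add_right_comm, pow_succ]; linarith [h.half (j + k)]

lemma Sq.anti (h : Sq η) {i j : ℕ} (e : i ≤ j) : η j ≤ η i :=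
  antitone_nat_of_succ_le (fun j => by linarith [h.half j, h.pos j]) e

lemma Sq.sm (h : Sq η) : Summable η := Summable.of_nonneg_of_le (fun j => (h.pos j).le)
  (h.geo 0) (summable_geometric_two.mul_left _)

lemma Sq.smb (h : Sq η) {f : ℕ → ℝ} {R : ℝ} (hf : ∀ j, |f j| ≤ R) : Summable fun j => η j * f j :=
  Summable.of_norm_bounded (h.sm.mul_right R) fun j => by
    rw [norm_mul, Real.norm_of_nonneg (h.pos j).le]
    exact mul_le_mul_of_nonneg_left (hf j) (h.pos j).le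

lemma Sq.tail (h : Sq η) {f : ℕ → ℝ} {R : ℝ} (k : ℕ) (hf : ∀ j, |f j| ≤ R) :
    |∑' j, η (j + k) * f (j + k)| ≤ 2 * η k * R := by
  have := tsum_of_norm_bounded (f := fun j => η (j + k) * f (j + k))
    ((hasSum_geometric_two.mul_left (η k)).mul_right R) fun j => by
      rw [norm_mul, Real.norm_of_nonneg (h.pos _).le]
      exact mul_le_mul (h.geo k j) (hf _) (abs_nonneg _) (by have := h.pos k; positivity)
  rw [mul_comm 2]; exact this

lemma Sq.smW (h : Sq η) (θ : ℝ) : Summable fun j => η j * Wa (aa j) θ := by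
  by_cases c : cos (θ / 2) = 0
  · simp [Wa, c, summable_zero]
  · obtain ⟨R, hR⟩ := (Wa_tend c).bddAbove_range
    exact h.smb fun j => by rw [abs_of_nonneg (Wa_nonneg _ _)]; exact hR ⟨j, rfl⟩

lemma Sq.nonneg (h : Sq η) (θ : ℝ) : 0 ≤ WW η θ :=
  tsum_nonneg fun j => mul_nonneg (h.pos j).le (Wa_nonneg _ _)

lemma Sq.Wpos (h : Sq η) {θ : ℝ} (c : cos (θ / 2) ≠ 0) : 0 < WW η θ := by
  obtain ⟨j, hj⟩ := ((Wa_tend c).eventually_const_lt (show (0 : ℝ) < 1 / 2 by norm_num)).exists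
  exact (h.smW θ).tsum_pos (fun j => mul_nonneg (h.pos j).le (Wa_nonneg _ _)) j (mul_pos (h.pos j) hj)

lemma Sq.ae (h : Sq η) : ∀ᵐ θ, WW η θ ≠ 0 := by
  filter_upwards [(Set.countable_range fun k : ℤ => (2 * k + 1) * π).ae_notMem volume] with θ hθ
  refine (h.Wpos fun c => hθ ?_).ne'
  obtain ⟨k, hk⟩ := cos_eq_zero_iff.1 c
  exact ⟨k, by linarith⟩

lemma Sq.meas (h : Sq η) : Measurable (WW η) :=
  measurable_of_tendsto_metrizable (f := fun n θ => ∑ j ∈ range n, η j * Wa (aa j) θ)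
    (fun n => by unfold Wa; fun_prop) (tendsto_pi_nhds.2 fun θ => (h.smW θ).hasSum.tendsto_sum_nat)

lemma W_per (η : ℕ → ℝ) : Function.Periodic (WW η) (2 * π) := fun θ => by
  simp only [WW, Wa, show (θ + 2 * π) / 2 = θ / 2 + π by ring, cos_add_pi, sin_add_pi, abs_neg, neg_sq]

lemma W_even (η : ℕ → ℝ) (θ : ℝ) : WW η (-θ) = WW η θ := by
  simp only [WW, Wa, neg_div, cos_neg, sin_neg, neg_sq]

lemma Sq.smq (h : Sq η) (q : ℝ[X]) : Summable fun j => η j * av (aa j) q := by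
  obtain ⟨R, hR⟩ := bdq q
  exact h.smb fun j => av_le' j q hR

noncomputable def Sq.II (h : Sq η) : ℝ[X] →ₗ[ℝ] ℝ where
  toFun q := ∑' j, η j * av (aa j) q
  map_add' p q := by simp only [map_add, mul_add]; exact (h.smq p).tsum_add (h.smq q)
  map_smul' c q := by simp [mul_left_comm, tsum_mul_left]

lemma Sq.int (h : Sq η) (q : ℝ[X]) : ∫ θ in (-π)..π, q.eval (cos θ) * WW η θ = π * h.II q := by
  obtain ⟨R, hR⟩ := bdq q
  have c : Continuous fun θ => q.eval (cos θ) := by fun_prop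
  have := hasSum_integral_of_summable_integral_norm (μ := volume.restrict (Set.Ioc (-π) π))
    (F := fun j θ => η j * (q.eval (cos θ) * Wa (aa j) θ))
    (fun j => (cov (aa_pos j) (aa_lt j) c).1.const_mul _) (by
      refine Summable.of_nonneg_of_le (fun j => integral_nonneg fun _ => norm_nonneg _) (fun j => ?_)
        (h.sm.mul_right (R * π))
      simp only [norm_mul, Real.norm_of_nonneg (h.pos j).le, Real.norm_of_nonneg (Wa_nonneg _ _)]
      rw [integral_const_mul, (cov (aa_pos j) (aa_lt j) c.norm).2]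
      refine mul_le_mul_of_nonneg_left ((le_abs_self _).trans ?_) (h.pos j).le
      have := intervalIntegral.norm_integral_le_of_norm_le_const (a := -(π / 2)) (b := π / 2) (C := R)
        (f := fun ψ => ‖q.eval (cos (hh (aa j) ψ))‖) fun ψ _ => by
          rw [norm_norm]; exact hR _ (abs_cos_le_one _)
      rwa [show π / 2 - -(π / 2) = π by ring, abs_of_pos pi_pos] at this)
  simp only [integral_const_mul, cov_av (aa_pos _) (aa_lt _)] at this
  simp only [mul_left_comm (η _), tsum_mul_left] at this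
  rw [intervalIntegral.integral_of_le (by linarith [pi_pos])]
  exact this.unique ((h.smq q).hasSum.mul_left π)

lemma Sq.II_one (h : Sq η) : 1 ≤ h.II 1 ∧ h.II 1 ≤ 2 := by
  have e : h.II 1 = ∑' j, η j := by simp [Sq.II, av_one]
  constructor
  · rw [e, ← h.one]; exact h.sm.le_tsum 0 fun j _ => (h.pos j).le
  · have := h.tail (f := fun _ => 1) (R := 1) 0 (by simp)
    rw [e]; simp [h.one] at this; exact (le_abs_self _).trans this

lemma Sq.mass (h : Sq η) : ∫ θ in (-π)..π, WW η θ = π * h.II 1 := by simpa using h.int 1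

lemma Sq.ii (h : Sq η) : IntervalIntegrable (WW η) volume (-π) π := by
  by_contra c
  have := h.mass
  rw [intervalIntegral.integral_undef c] at this
  nlinarith [h.II_one.1, pi_pos]

lemma Sq.split (h : Sq η) (q : ℝ[X]) (k : ℕ) : h.II q = ∑ l ∈ range k, η l * av (aa l) q +
    η k * av (aa k) q + ∑' j, η (j + (k + 1)) * av (aa (j + (k + 1))) q := by
  rw [← sum_range_succ (fun l => η l * av (aa l) q), (h.smq q).sum_add_tsum_nat_add]; rfl

lemma Sq.stage (h : Sq η) {k n N : ℕ} {R : ℝ} (n1 : 1 ≤ n)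
    (hR : ∀ m ≤ n, ∀ x, |x| ≤ 1 → |(Tt (aa k) m).eval x| ≤ R) (h1 : 48 * n ^ 2 * η (k + 1) * R ≤ η k)
    (h2 : 200 * n ^ 2 * (k + 1) ≤ N * η k) : ∃ u : Multiset ℝ, u.card = N / 2 ∧ (∀ x ∈ u, |x| ≤ 1) ∧
      ∀ q : ℝ[X], q.natDegree ≤ n →
        N / h.II 1 * h.II q = 2 * (u.map fun x => q.eval x).sum + (N % 2 : ℕ) * q.eval 1 := by
  obtain ⟨H1, H2⟩ := h.II_one
  set x := N / (2 * h.II 1) with hx
  have x0 : 0 ≤ x := by positivity
  have nr : (1 : ℝ) ≤ n := by exact_mod_cast n1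
  have kr : (0 : ℝ) ≤ k := by positivity
  have ek := h.pos k
  have x1 : 50 * n ^ 2 * (k + 1) ≤ x * η k := by
    rw [hx, div_mul_eq_mul_div, le_div_iff₀ (by positivity)]
    nlinarith [mul_le_mul_of_nonneg_left H2 (show (0 : ℝ) ≤ 100 * n ^ 2 * (k + 1) by positivity)]
  have n2 : (n : ℝ) ≤ n ^ 2 * (k + 1) := by nlinarith [mul_nonneg (sq_nonneg (n : ℝ)) kr]
  let M : ℕ → ℕ := fun l => ⌊x * η l⌋₊
  have lo : ∀ l, ∃ u : Multiset ℝ, l < k → u.card = M l ∧ (∀ x ∈ u, |x| ≤ 1) ∧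
      ∀ q : ℝ[X], q.natDegree ≤ n → (u.map fun x => q.eval x).sum = M l * av (aa l) q := by
    intro l
    by_cases hl : l < k
    · obtain ⟨u, hu⟩ := compo (aa_pos l) (aa_lt l) (n := n) (L := 0) (M := M l)
        ((M l : ℝ) • av (aa l)) (by simp [av_one]) (fun m a _ => by simp [av_T (aa_pos l) a]) (by
          refine (by simp : _ = 4 * n + 2).trans_le (Nat.le_floor ?_)
          push_cast
          nlinarith [mul_le_mul_of_nonneg_left (h.anti hl.le) x0])
      exact ⟨u, fun _ => hu⟩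
    · exact ⟨0, fun c => absurd c hl⟩
  choose u hu using lo
  have fl : ∀ l, 0 ≤ x * η l - M l ∧ x * η l - M l ≤ 1 := fun l =>
    ⟨sub_nonneg.2 (Nat.floor_le (mul_nonneg x0 (h.pos l).le)), by
      have := Nat.lt_floor_add_one (x * η l); simp only [M]; linarith⟩
  have r1 : ((N % 2 : ℕ) : ℝ) ≤ 1 := by exact_mod_cast (by omega : N % 2 ≤ 1)
  have r2 : (N : ℝ) = 2 * (N / 2 : ℕ) + (N % 2 : ℕ) := by exact_mod_cast (Nat.div_add_mod N 2).symm
  have xH : x * h.II 1 = N / 2 := by rw [hx]; field_simp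
  have s1 : (∑ l ∈ range k, M l : ℕ) + x * η k ≤ N / 2 := by
    have := h.split 1 k
    simp only [av_one, mul_one] at this
    have t : 0 ≤ ∑' j, η (j + (k + 1)) := tsum_nonneg fun j => (h.pos _).le
    have : ∑ l ∈ range k, (M l : ℝ) ≤ x * ∑ l ∈ range k, η l := by
      rw [mul_sum]; exact sum_le_sum fun l _ => by linarith [(fl l).1]
    push_cast
    nlinarith
  have s2 : ∑ l ∈ range k, M l ≤ N / 2 := by
    have : ((∑ l ∈ range k, M l : ℕ) : ℝ) ≤ (N / 2 : ℕ) := by nlinarith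
    exact_mod_cast this
  let Λ : ℝ[X] →ₗ[ℝ] ℝ := x • h.II - ∑ l ∈ range k, (M l : ℝ) • av (aa l) -
    ((N % 2 : ℕ) / 2 : ℝ) • leval 1
  have eΛ : ∀ q, Λ q = x * h.II q - ∑ l ∈ range k, M l * av (aa l) q - (N % 2 : ℕ) / 2 * q.eval 1 := by
    intro q; simp [Λ, LinearMap.sum_apply]
  have R0 : 0 ≤ R := (abs_nonneg _).trans (hR 0 (by omega) 0 (by simp))
  have e1 := h.pos (k + 1)
  obtain ⟨v, v1, v2, v3⟩ := compo (aa_pos k) (aa_lt k) (n := n)
    (L := ⌈4 * n * (k + 1 + x * (2 * η (k + 1) * R))⌉₊) (M := N / 2 - ∑ l ∈ range k, M l) Λ (by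
      rw [eΛ, Nat.cast_sub s2, Nat.cast_sum]; simp only [av_one, eval_one, mul_one]; linarith)
    (fun m a b => by
      refine le_trans ?_ (Nat.le_ceil _)
      gcongr
      rw [eΛ, h.split _ k, av_T (aa_pos k) a]
      have t1 := h.tail (k + 1) fun j => av_le' j _ (hR m b)
      have t2 : |∑ l ∈ range k, (x * η l - M l) * av (aa l) (Tt (aa k) m)| ≤ k := by
        refine (abs_sum_le_sum_abs _ _).trans ((sum_le_card_nsmul _ _ 1 fun l hl => ?_).trans (by simp))
        rw [abs_mul, abs_of_nonneg (fl l).1]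
        refine mul_le_one₀ (fl l).2 (abs_nonneg _) (av_le _ _ fun y c d => Tt_le (aa_pos k) _ ?_ d)
        nlinarith [aa_mono (mem_range.1 hl).le, aa_pos l]
      have t3 := Tt_le (aa_pos k) m (x := 1) (by nlinarith [aa_pos k]) le_rfl
      simp only [sub_mul, sum_sub_distrib, mul_assoc x, ← mul_sum] at t2
      have t4 := mul_le_mul_of_nonneg_left t1 x0
      rw [← abs_of_nonneg x0, ← abs_mul, abs_of_nonneg x0] at t4
      have r0 : (0 : ℝ) ≤ (N % 2 : ℕ) := by positivity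
      rw [abs_le] at *
      constructor <;> nlinarith)
    (by
      have := Nat.ceil_lt_add_one (show 0 ≤ 4 * n * (k + 1 + x * (2 * η (k + 1) * R)) by positivity)
      generalize ⌈4 * n * (k + 1 + x * (2 * η (k + 1) * R))⌉₊ = L at this
      have t : ((2 * n + 1) * L + (4 * n + 2) : ℝ) ≤ (N / 2 : ℕ) - (∑ l ∈ range k, M l : ℕ) := by
        have L0 : (0 : ℝ) ≤ L := by positivity
        have := mul_le_mul_of_nonneg_left this.le (show (0 : ℝ) ≤ 3 * n by positivity)
        have := mul_le_mul_of_nonneg_left h1 x0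
        nlinarith
      rw [← Nat.cast_sub s2] at t
      exact_mod_cast t)
  refine ⟨v + ∑ l ∈ range k, u l, ?_, fun y hy => ?_, fun q hq => ?_⟩
  · rw [Multiset.card_add, Multiset.card_sum, v1, sum_congr rfl fun l hl => (hu l (mem_range.1 hl)).1]
    exact Nat.sub_add_cancel s2
  · rcases Multiset.mem_add.1 hy with c | c
    · exact v2 y c
    · obtain ⟨l, hl, c⟩ := Multiset.mem_sum.1 c
      exact (hu l (mem_range.1 hl)).2.1 y c
  · have e : ∀ s : Finset ℕ, ((∑ l ∈ s, u l).map fun x => q.eval x).sum =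
        ∑ l ∈ s, ((u l).map fun x => q.eval x).sum := fun s => by
      induction s using Finset.cons_induction with
      | empty => simp
      | cons a s _ ih => rw [sum_cons, sum_cons, Multiset.map_add, Multiset.sum_add, ih]
    rw [Multiset.map_add, Multiset.sum_add, v3 q hq, eΛ, e,
      sum_congr rfl fun l hl => (hu l (mem_range.1 hl)).2.2 q hq, hx]
    field_simp; ring

end Pool.Agent.H.MP_8220a0_an
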