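import Pool.Agent.H.MP_8220a0_an.C

open Finset Polynomial Real MeasureTheory Filter Topology

namespace Pool.Agent.H.MP_8220a0_an

def TT (n : ℕ) : Submodule ℝ (ℝ → ℝ) :=
  Submodule.span ℝ {f | ∃ m : ℕ, m ≤ n ∧ (f = (fun θ => cos (m * θ)) ∨ f = fun θ => sin (m * θ))}

def Quad (W : ℝ → ℝ) (n N : ℕ) : Prop :=
  ∃ θ : Fin N → ℝ, Monotone θ ∧ ∃ l : ℝ, ∀ p ∈ TT n, ∫ t in (-π)..π, p t * W t = l * ∑ i, p (θ i)

lemma srt {N : ℕ} (s : Multiset ℝ) (h : s.card = N) :
    ∃ θ : Fin N → ℝ, Monotone θ ∧ ∀ p : ℝ → ℝ, ∑ i, p (θ i) = (s.map p).sum := by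
  induction s using Quotient.inductionOn with
  | _ l =>
    obtain rfl : l.length = N := by simpa using h
    refine ⟨l.get ∘ Tuple.sort l.get, Tuple.monotone_sort _, fun p => ?_⟩
    rw [show ∑ i, p ((l.get ∘ Tuple.sort l.get) i) = _ from
      Equiv.sum_comp (Tuple.sort l.get) fun i => p (l.get i)]
    simp

lemma poly_mem {n : ℕ} {r : ℝ[X]} (hr : r.natDegree ≤ n) : (fun θ => r.eval (cos θ)) ∈ TT n := by
  have h := mem_degreeLE.2 (degree_le_of_natDegree_le hr)
  rw [← Sequence.span_degreeLE (Chebyshev.chebyshevTsequence ℝ)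
    fun i _ => (leadingCoeff_ne_zero.2 (Sequence.ne_zero _ i)).isUnit] at h
  clear hr
  induction h using Submodule.span_induction with
  | mem r hr =>
    obtain ⟨j, hj, rfl⟩ := hr
    refine Submodule.subset_span ⟨j, hj, Or.inl (funext fun θ => ?_)⟩
    exact (Chebyshev.T_real_cos θ j).trans (by simp)
  | zero => simp only [eval_zero]; exact (TT n).zero_mem
  | add x y _ _ hx hy => simp only [eval_add]; exact (TT n).add_mem hx hy
  | smul c x _ hx => simp only [eval_smul]; exact (TT n).smul_mem c hx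

variable {η : ℕ → ℝ}

lemma Sq.quad (h : Sq η) {n N : ℕ} (N0 : 0 < N) (u : Multiset ℝ) (h1 : u.card = N / 2)
    (h2 : ∀ x ∈ u, |x| ≤ 1) (h3 : ∀ q : ℝ[X], q.natDegree ≤ n →
      N / h.II 1 * h.II q = 2 * (u.map fun x => q.eval x).sum + (N % 2 : ℕ) * q.eval 1) :
    Quad (WW η) n N := by
  obtain ⟨θ, m, e⟩ := srt (N := N) (u.map arccos + u.map (fun x => -arccos x) +
    Multiset.replicate (N % 2) 0) (by simp [h1]; omega)
  refine ⟨θ, m, π * h.II 1 / N, fun p hp => ?_⟩
  suffices Continuous p ∧ ∫ t in (-π)..π, p t * WW η t = π * h.II 1 / N * ∑ i, p (θ i) from this.2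
  induction hp using Submodule.span_induction with
  | mem f hf =>
    obtain ⟨j, hj, rfl | rfl⟩ := hf
    · refine ⟨by fun_prop, ?_⟩
      have a := h.int (Chebyshev.T ℝ j)
      have b := h3 (Chebyshev.T ℝ j) (by rw [Chebyshev.natDegree_T]; simpa using hj)
      have c : (u.map fun x => (Chebyshev.T ℝ j).eval x) = u.map fun x => cos (j * arccos x) :=
        Multiset.map_congr rfl fun x hx => by
          have := abs_le.1 (h2 x hx)
          conv_lhs => rw [← cos_arccos this.1 this.2, Chebyshev.T_real_cos]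
          simp
      simp only [Chebyshev.T_real_cos, Int.cast_natCast] at a
      rw [a, e (fun θ => cos (j * θ))]
      rw [c, Chebyshev.T_eval_one] at b
      simp only [Multiset.map_add, Multiset.sum_add, Multiset.map_map, Function.comp_def, mul_neg,
        cos_neg, Multiset.map_replicate, Multiset.sum_replicate, mul_zero, cos_zero, nsmul_eq_mul]
      rw [← two_mul, ← b]
      have := h.II_one.1
      field_simp
    · refine ⟨by fun_prop, ?_⟩
      rw [e (fun θ => sin (j * θ))]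
      have a := intervalIntegral.integral_comp_neg (a := -π) (b := π)
        fun t => sin (j * t) * WW η t
      simp only [mul_neg, sin_neg, W_even, neg_mul, intervalIntegral.integral_neg, neg_neg] at a
      simp [Multiset.sum_map_neg]
      linarith
  | zero => exact ⟨continuous_const, by simp⟩
  | add x y _ _ hx hy =>
    refine ⟨hx.1.add hy.1, ?_⟩
    simp only [Pi.add_apply, add_mul, sum_add_distrib, mul_add]
    rw [intervalIntegral.integral_add (h.ii.continuousOn_mul hx.1.continuousOn)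
      (h.ii.continuousOn_mul hy.1.continuousOn), hx.2, hy.2]
  | smul c x _ hx =>
    refine ⟨hx.1.const_smul c, ?_⟩
    simp only [Pi.smul_apply, smul_eq_mul, mul_assoc, ← mul_sum]
    rw [intervalIntegral.integral_const_mul, hx.2]; ring

noncomputable def q0 (n : ℕ) : ℝ[X] := (C (1 / 2) * (1 - X)) ^ n

lemma q0_deg (n : ℕ) : (q0 n).natDegree ≤ n := by
  refine natDegree_pow_le.trans ?_
  calc _ ≤ n * 1 := Nat.mul_le_mul_left _ (by compute_degree)
    _ = n := mul_one n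

lemma q0_eval (n : ℕ) (x : ℝ) : (q0 n).eval x = ((1 - x) / 2) ^ n := by simp [q0]; ring

lemma q0_le (n : ℕ) {x b : ℝ} (h1 : 1 - 2 * b ≤ x) (h2 : x ≤ 1) : |(q0 n).eval x| ≤ b ^ n := by
  rw [q0_eval, abs_of_nonneg (pow_nonneg (by linarith) _)]
  exact pow_le_pow_left₀ (by linarith) (by linarith) _

lemma Sq.q0_le (h : Sq η) {k n : ℕ} (h1 : η (k + 1) ≤ (aa k ^ 2) ^ n) :
    h.II (q0 n) ≤ 4 * (aa k ^ 2) ^ n := by
  have t := h.tail (f := fun j => av (aa j) (q0 n)) (R := 1) (k + 1) fun j =>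
    av_le' j _ fun x hx => by
      simpa using MP_8220a0_an.q0_le n (b := 1) (by linarith [abs_le.1 hx]) (abs_le.1 hx).2
  have s : ∑ l ∈ range (k + 1), η l * av (aa l) (q0 n) ≤ ∑ l ∈ range (k + 1), η l * (aa k ^ 2) ^ n :=
    sum_le_sum fun l hl => mul_le_mul_of_nonneg_left ((le_abs_self _).trans (av_le _ _ fun x a b =>
      MP_8220a0_an.q0_le n (by nlinarith [aa_mono (Nat.lt_succ_iff.1 (mem_range.1 hl)), aa_pos l]) b))
      (h.pos l).le
  have e : ∑ l ∈ range (k + 1), η l ≤ 2 := (h.sm.sum_le_tsum _ fun j _ => (h.pos j).le).trans (by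
    simpa [Sq.II, av_one] using h.II_one.2)
  rw [← sum_mul] at s
  rw [h.split _ k, ← sum_range_succ (fun l => η l * av (aa l) (q0 n))]
  nlinarith [le_abs_self (∑' j, η (j + (k + 1)) * av (aa (j + (k + 1))) (q0 n)),
    pow_nonneg (sq_nonneg (aa k)) n]

lemma p_nonneg (n : ℕ) (θ : ℝ) : 0 ≤ (q0 n).eval (cos θ) := by
  rw [q0_eval]; exact pow_nonneg (by linarith [cos_le_one θ]) _

lemma Sq.q0_pos (h : Sq η) (n : ℕ) : 0 < ∫ θ in (-π)..π, (q0 n).eval (cos θ) * WW η θ := by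
  rw [intervalIntegral.integral_pos_iff_support_of_nonneg_ae
    (Eventually.of_forall fun θ => mul_nonneg (p_nonneg n θ) (h.nonneg θ))
    (h.ii.continuousOn_mul (by fun_prop))]
  refine ⟨by linarith [pi_pos], lt_of_lt_of_le (by simp) (measure_mono (s := Set.Ioo 1 2) ?_)⟩
  rintro θ ⟨a, b⟩
  have := pi_gt_three
  refine ⟨(mul_pos ?_ (h.Wpos (cos_pos_of_mem_Ioo ⟨by linarith, by linarith⟩).ne')).ne',
    by linarith, by linarith⟩
  rw [q0_eval]
  have := cos_lt_cos_of_nonneg_of_le_pi le_rfl (by linarith) (show 0 < θ by linarith)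
  rw [cos_zero] at this
  exact pow_pos (by linarith) _

lemma var_ge {n : ℕ} (hn : 1 ≤ n) :
    1 ≤ ∫ θ in (-π)..π, |deriv (fun θ => (q0 n).eval (cos θ)) θ| := by
  have c : ContDiff ℝ 1 fun θ => (q0 n).eval (cos θ) := by simp only [q0_eval]; fun_prop
  have c1 := c.continuous_deriv le_rfl
  have a := intervalIntegral.integral_deriv_eq_sub (a := 0) (b := π)
    (fun x _ => c.differentiable one_ne_zero x) (c1.intervalIntegrable _ _)
  have b := intervalIntegral.abs_integral_le_integral_abs (μ := volume) (f := deriv fun θ => (q0 n).eval (cos θ))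
    pi_pos.le
  rw [a] at b
  simp only [q0_eval, cos_pi, cos_zero] at b ⊢
  simp only [q0_eval] at c1
  rw [← intervalIntegral.integral_add_adjacent_intervals (b := 0) (c1.abs.intervalIntegrable _ _)
    (c1.abs.intervalIntegrable _ _)]
  have d := intervalIntegral.integral_nonneg (μ := volume) (a := -π) (b := 0) (by linarith [pi_pos])
    (f := fun θ => |deriv (fun θ => ((1 - cos θ) / 2) ^ n) θ|) fun _ _ => abs_nonneg _
  norm_num [show n ≠ 0 by omega] at b
  linarith

lemma step (k : ℕ) (e : ℝ) : ∃ (n : ℕ) (e' R : ℝ), 0 < e → k + 1 ≤ n ∧ 0 < e' ∧ e' ≤ e / 2 ∧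
    e' ≤ (aa k ^ 2) ^ n ∧ (∀ m ≤ n, ∀ x, |x| ≤ 1 → |(Tt (aa k) m).eval x| ≤ R) ∧
      48 * n ^ 2 * e' * R ≤ e ∧ (200 * n ^ 2 * (k + 1) / e + 1) * (8 * (k + 1) * (aa k ^ 2) ^ n) ≤ 1 := by
  by_cases he : 0 < e
  swap
  · exact ⟨0, 0, 0, fun c => absurd c he⟩
  have a0 := aa_pos k
  have t := (tendsto_pow_const_mul_const_pow_of_abs_lt_one 2 (r := aa k ^ 2) (by
    rw [abs_of_pos (by positivity)]; nlinarith [aa_lt k])).const_mul
      ((200 * (k + 1) / e + 1) * (8 * (k + 1)))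
  obtain ⟨n, h1, h2⟩ := ((t.eventually_le_const (show _ < (1 : ℝ) by simp)).and
    (eventually_ge_atTop (k + 1))).exists
  choose R hR using fun m => bdq (Tt (aa k) m)
  have nr : (1 : ℝ) ≤ n := by exact_mod_cast (by omega : 1 ≤ n)
  set S := ∑ m ∈ range (n + 1), |R m| + 1 with hS
  have S0 : 0 < S := by positivity
  refine ⟨n, min (min (e / 2) ((aa k ^ 2) ^ n)) (e / (48 * n ^ 2 * S)), S, fun _ => ⟨h2, by positivity,
    (min_le_left _ _).trans (min_le_left _ _), (min_le_left _ _).trans (min_le_right _ _),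
    fun m hm x hx => ?_, ?_, le_trans ?_ h1⟩⟩
  · have := single_le_sum (f := fun m => |R m|) (fun _ _ => abs_nonneg _)
      (mem_range.2 (Nat.lt_succ_of_le hm))
    linarith [hR m x hx, le_abs_self (R m)]
  · calc _ ≤ 48 * n ^ 2 * (e / (48 * n ^ 2 * S)) * S := by gcongr; exact min_le_right _ _
      _ = e := by field_simp
  · calc _ ≤ (200 * n ^ 2 * (k + 1) / e + n ^ 2) * (8 * (k + 1) * (aa k ^ 2) ^ n) := by
          gcongr; nlinarith
      _ = _ := by ring

lemma main : ∃ η, Sq η ∧ ∀ c > 0, ∀ n0 : ℕ, ∃ n ≥ n0, ∃ N1 : ℕ, (∀ N ≥ N1, Quad (WW η) n N) ∧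
    ∃ p ∈ TT n, (∀ θ, 0 ≤ p θ) ∧ p ≠ 0 ∧ 0 < ∫ θ in (-π)..π, p θ * WW η θ ∧
      (N1 : ℝ) < c * ((∫ θ in (-π)..π, WW η θ) / 2 *
        ((∫ θ in (-π)..π, |deriv p θ|) / ∫ θ in (-π)..π, p θ * WW η θ)) := by
  choose n e' R hs using step
  let η : ℕ → ℝ := fun k => Nat.rec 1 e' k
  have pos : ∀ k, 0 < η k := fun k => by
    induction k with
    | zero => exact one_pos
    | succ k ih => exact (hs k _ ih).2.1
  have h : Sq η := ⟨pos, rfl, fun k => (hs k _ (pos k)).2.2.1⟩
  refine ⟨η, h, fun c c0 n0 => ?_⟩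
  obtain ⟨k0, hk⟩ := exists_nat_one_div_lt c0
  set k := k0 + n0 with hk0
  obtain ⟨s1, -, -, s2, s3, s4, s5⟩ := hs k _ (pos k)
  set m := n k (η k)
  have ek := pos k
  have m1 : 1 ≤ m := by omega
  have J0 := h.q0_pos m
  refine ⟨m, by omega, ⌈200 * m ^ 2 * (k + 1) / η k⌉₊, fun N hN => ?_, _, poly_mem (q0_deg m),
    p_nonneg m, fun z => ?_, J0, ?_⟩
  · have : 200 * m ^ 2 * (k + 1) ≤ N * η k := by rwa [ge_iff_le, Nat.ceil_le, div_le_iff₀ ek] at hN
    obtain ⟨u, u1, u2, u3⟩ := h.stage m1 s3 s4 this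
    refine h.quad (Nat.pos_of_ne_zero ?_) u u1 u2 u3
    rintro rfl
    have : (0 : ℝ) < 200 * m ^ 2 * (k + 1) := by positivity
    simp at *; linarith
  · have := congrFun z π
    simp [q0_eval] at this
  · have J1 := h.q0_le (k := k) (n := m) s2
    have V := var_ge m1
    rw [h.int] at J0 ⊢
    rw [h.mass]
    have H := h.II_one.1
    have a0 := aa_pos k
    have c1 : 1 ≤ c * (k + 1) := by
      rw [div_lt_iff₀ (by positivity)] at hk
      rw [hk0]; push_cast; nlinarith [n0.cast_nonneg (α := ℝ)]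
    have N1 := Nat.ceil_lt_add_one (show 0 ≤ 200 * m ^ 2 * (k + 1) / η k by positivity)
    refine N1.trans_le ?_
    have X0 : 0 ≤ 200 * m ^ 2 * (k + 1) / η k + 1 := by positivity
    generalize 200 * m ^ 2 * (k + 1) / η k + 1 = X at *
    calc X ≤ c * (π * 1 / 2 * (1 / (π * (4 * (aa k ^ 2) ^ m)))) := by
          rw [show c * (π * 1 / 2 * (1 / (π * (4 * (aa k ^ 2) ^ m)))) =
            c * (k + 1) / (8 * (k + 1) * (aa k ^ 2) ^ m) by field_simp; ring,
            le_div_iff₀ (by positivity)]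
          linarith
      _ ≤ _ := by gcongr

end Pool.Agent.H.MP_8220a0_an
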